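import Pool.Agent.SHATB.Outer
import Pool.Agent.SHAT36.OddSec
import Pool.Agent.SHAT36.SylConj
import Pool.Agent.SHAF.Ord16c
import Pool.Agent.SHAF.AllE

set_option autoImplicit false

/-!
The main theorems on 2-subgroups of members of admissible classes.
-/

namespace Pool.Agent.SHATB

open Pool.Agent.SHA Pool.Agent.SHAF

variable {K : (G : Type) → [Group G] → Prop}

theorem two_subgroup (hK : Admissible K) (G : Type) [Group G] (hKG : K G) (P : Subgroup G)
    (hP : IsPGroup 2 P) :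
    Finite P ∧ ((∃ (F : Type) (_ : Group F), Finite F ∧ ¬ K F) →
      Nat.card P ≤ 8 ∨ (Nat.card P = 16 ∧ IsCyclic P)) := by
  have hKP : K P := hK.1.sub _ _ P.subtype P.subtype_injective hKG
  have hf : Finite P := two_group_finite (hK.1.shab hK.2) hKP hP
  refine ⟨hf, ?_⟩
  rintro ⟨F, _, hF, hKF⟩
  exact two_groups hK.1 (fun h => hKF (all_finite hK.1 h F)) hKP hP

theorem outer_fix (hK : Admissible K) (G : Type) [Group G] (hKG : K G) (hinf : Infinite G)
    (ht : ∀ x : G, IsOfFinOrder x) (Q : Subgroup (MulAut G)) (hQ : IsPGroup 2 Q) :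
    Finite Q ∧ {g : G | ∀ α ∈ Q, α g = g}.Infinite := by
  have hb : SHAb K := hK.1.shab hK.2
  have hKA : K (MulAut G) := hK.1.aut G hKG
  have hQf : Finite Q := two_group_finite hb (hb.sub' hKA Q) hQ
  have hZ : Finite (Subgroup.center G) := by
    refine hb.finite_locSol (hb.sub' hKG _) ?_ ((tors_iff.mpr ht).sub _)
    intro H _
    apply Group.isSolvable_of_comm
    intro a b
    apply Subtype.ext
    apply Subtype.ext
    show a.1.1 * b.1.1 = b.1.1 * a.1.1
    exact (Subgroup.mem_center_iff.mp b.1.2 a.1.1)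
  refine ⟨hQf, outer ht hZ Q hQ hQf ?_⟩
  intro A hA htA P hP
  exact inner hb A (hb.sub' hKA A) hA (tors_iff.mpr htA) P hP

theorem odd_sec (hK : Admissible K) (G : Type) [Group G] (hKG : K G) (hinf : Infinite G)
    (ht : ∀ x : G, IsOfFinOrder x) :
    ∃ (C : Subgroup G) (Z : Subgroup C) (_ : Z.Normal), Finite Z ∧ Z ≤ Subgroup.center C ∧
      Infinite (C ⧸ Z) ∧ ∀ x : C ⧸ Z, Odd (orderOf x) :=
  have hb : SHAb K := hK.1.shab hK.2
  SHAT36.odd_section ht (fun P hP => two_group_finite hb (hb.sub' hKG P) hP)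
    (fun Q hQ => inner hb G hKG hinf (tors_iff.mpr ht) Q hQ)

theorem sylow2 (hK : Admissible K) (G : Type) [Group G] (hKG : K G)
    (ht : ∀ x : G, IsOfFinOrder x) (P Q : Sylow 2 G) :
    ∃ g : G, (Q : Subgroup G) = (P : Subgroup G).map (MulAut.conj g).toMonoidHom :=
  have hb : SHAb K := hK.1.shab hK.2
  SHAT36.sylow_conj ht (fun P hP => two_group_finite hb (hb.sub' hKG P) hP) P Q

lemma odd_orderOf_quot {G : Type} [Group G] (R : Subgroup G) [R.Normal]
    (h : ∀ x : G, Odd (orderOf x)) (x : G ⧸ R) : Odd (orderOf x) := by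
  obtain ⟨y, rfl⟩ := QuotientGroup.mk'_surjective R x
  have h1 : orderOf (QuotientGroup.mk' R y) ∣ orderOf y := orderOf_map_dvd _ y
  exact Odd.of_dvd_nat (h y) h1

theorem odd_member (hK : Admissible K)
    (h : ∃ (G : Type) (_ : Group G), K G ∧ Infinite G ∧ ∀ x : G, IsOfFinOrder x) :
    ∃ (G : Type) (_ : Group G), K G ∧ Infinite G ∧ (∀ x : G, Odd (orderOf x)) ∧
      ∀ N : Subgroup G, N.Normal → HyperLSF N → N = ⊥ := by
  obtain ⟨G, _, hKG, hinf, ht⟩ := h
  have hb : SHAb K := hK.1.shab hK.2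
  obtain ⟨C, Z, _, -, -, hCinf, hodd⟩ := odd_sec hK G hKG hinf ht
  have hKQ : K (C ⧸ Z) := hb.quo' (hb.sub' hKG C) Z
  obtain ⟨R, hRn, hRac, -, hR, -⟩ := structure_thm hK (C ⧸ Z) hKQ
  have hRf : Finite R := by
    obtain ⟨c, hc, hcf⟩ := hRac
    have hcfin : Finite c := by
      obtain ⟨g, hg⟩ := hc
      have h1 : IsOfFinOrder g := by
        have h2 : Tors (C ⧸ Z) := fun x =>
          ⟨orderOf x, (Odd.pos (hodd x)).ne', pow_orderOf_eq_one x⟩
        exact tors_iff.mp ((h2.sub R).sub c) g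
      have h3 : (Subgroup.zpowers g : Set c).Finite := finite_zpowers.mpr h1
      have h4 : (Subgroup.zpowers g : Set c) = Set.univ :=
        Set.eq_univ_of_forall fun x => hg x
      rw [h4] at h3
      exact Set.finite_univ_iff.mp h3
    exact finite_of_index c hcfin hcf
  exact ⟨(C ⧸ Z) ⧸ R, inferInstance, hb.quo' hKQ R, infinite_quot R hRf,
    fun x => odd_orderOf_quot R hodd x, hR⟩

end Pool.Agent.SHATB
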