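import Pool.Agent.SHATB.Ultra

set_option autoImplicit false

/-!
The central step: a torsion group with an involution with finite centraliser, in which all
nontrivial elements centralised or inverted by such an involution have finite centraliser, is finite.
-/

namespace Pool.Agent.SHATB

/-- the centraliser is conjugated -/
lemma cent_conj_finite {G : Type} [Group G] (t x : G) (hC : {y : G | y * t = t * y}.Finite) :
    {y : G | y * (x⁻¹ * t * x) = (x⁻¹ * t * x) * y}.Finite := by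
  refine (hC.image (fun y => x⁻¹ * y * x)).subset ?_
  intro y hy
  have hy' : y * (x⁻¹ * t * x) = (x⁻¹ * t * x) * y := hy
  refine ⟨x * y * x⁻¹, ?_, by group⟩
  show x * y * x⁻¹ * t = t * (x * y * x⁻¹)
  calc x * y * x⁻¹ * t = x * (y * (x⁻¹ * t * x)) * x⁻¹ := by group
    _ = x * ((x⁻¹ * t * x) * y) * x⁻¹ := by rw [hy']
    _ = t * (x * y * x⁻¹) := by group

lemma inv_of_sq {G : Type} [Group G] {t : G} (ht : t * t = 1) : t⁻¹ = t :=
  inv_eq_of_mul_eq_one_left ht

/-- two involutions with product of odd order are conjugate -/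
lemma conj_of_odd {G : Type} [Group G] (t k : G) (ht : t * t = 1) (hk : k * k = 1) (m : ℕ)
    (h : (t * k) ^ (2 * m + 1) = 1) : ∃ x : G, x⁻¹ * t * x = k := by
  have hti := inv_of_sq ht
  have hki := inv_of_sq hk
  set y := t * k with hy
  have h1 : t * y * t⁻¹ = y⁻¹ := by
    rw [hy]
    calc t * (t * k) * t⁻¹ = (t * t) * k * t⁻¹ := by group
      _ = k⁻¹ * t⁻¹ := by rw [ht, hki, one_mul]
      _ = (t * k)⁻¹ := by group
  have h2 : t * y ^ (m + 1) * t⁻¹ = (y ^ (m + 1))⁻¹ := by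
    rw [← conj_pow, h1, inv_pow]
  have h3 : y ^ (m + 1) * y ^ (m + 1) = y := by
    rw [← pow_add, show m + 1 + (m + 1) = (2 * m + 1) + 1 by omega, pow_succ, h, one_mul]
  refine ⟨y ^ (m + 1), ?_⟩
  calc (y ^ (m + 1))⁻¹ * t * y ^ (m + 1)
      = (y ^ (m + 1))⁻¹ * (t * y ^ (m + 1) * t⁻¹) * t := by group
    _ = (y ^ (m + 1))⁻¹ * (y ^ (m + 1))⁻¹ * t := by rw [h2]
    _ = (y ^ (m + 1) * y ^ (m + 1))⁻¹ * t := by group
    _ = (t * k)⁻¹ * t := by rw [h3]
    _ = k⁻¹ * (t⁻¹ * t) := by group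
    _ = k := by rw [hki]; group

/-- two involutions with product of even order centralise a common involution -/
lemma common_of_even {G : Type} [Group G] (t k : G) (ht : t * t = 1) (hk : k * k = 1)
    (m : ℕ) (hm : m ≠ 0) (h : orderOf (t * k) = 2 * m) :
    ∃ z : G, z * z = 1 ∧ z ≠ 1 ∧ z * t = t * z ∧ z * k = k * z := by
  have hti := inv_of_sq ht
  have hki := inv_of_sq hk
  set y := t * k with hy
  have h1 : t * y * t⁻¹ = y⁻¹ := by
    rw [hy]
    calc t * (t * k) * t⁻¹ = (t * t) * k * t⁻¹ := by group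
      _ = k⁻¹ * t⁻¹ := by rw [ht, hki, one_mul]
      _ = (t * k)⁻¹ := by group
  have h2 : t * y ^ m * t⁻¹ = (y ^ m)⁻¹ := by
    rw [← conj_pow, h1, inv_pow]
  have h3 : y ^ m * y ^ m = 1 := by
    rw [← pow_add, show m + m = orderOf y by omega, pow_orderOf_eq_one]
  have h4 : (y ^ m)⁻¹ = y ^ m := inv_of_sq h3
  have h5 : y ^ m * t = t * y ^ m := by
    rw [h4] at h2
    calc y ^ m * t = (t * y ^ m * t⁻¹) * t := by rw [h2]
      _ = t * y ^ m := by group
  refine ⟨y ^ m, h3, ?_, h5, ?_⟩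
  · intro h6
    have := orderOf_dvd_of_pow_eq_one h6
    have := Nat.le_of_dvd (by omega) this
    omega
  · have h7 : y ^ m * y = y * y ^ m := by rw [← pow_succ, pow_succ']
    have hk' : k = t * y := by rw [hy, ← mul_assoc, ht, one_mul]
    rw [hk']
    calc y ^ m * (t * y) = (y ^ m * t) * y := by group
      _ = t * (y ^ m * y) := by rw [h5]; group
      _ = t * y * y ^ m := by rw [h7]; group

theorem base {H : Type} [Group H] [Infinite H] (tors : ∀ x : H, IsOfFinOrder x) (t : H)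
    (ht : t * t = 1) (ht1 : t ≠ 1) (hC : {x : H | x * t = t * x}.Finite)
    (hM : ∀ d s : H, d ≠ 1 → s * s = 1 → s ≠ 1 → {x : H | x * s = s * x}.Finite →
      (s * d * s⁻¹ = d ∨ s * d * s⁻¹ = d⁻¹) → {x : H | x * d = d * x}.Finite) : False := by
  -- all involutions have finite centralisers
  have hall : ∀ k : H, k * k = 1 → k ≠ 1 → {x : H | x * k = k * x}.Finite := by
    intro k hk hk1
    have hpos : 0 < orderOf (t * k) := (tors (t * k)).orderOf_pos
    rcases Nat.even_or_odd' (orderOf (t * k)) with ⟨m, hm | hm⟩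
    · obtain ⟨z, hz, hz1, hzt, hzk⟩ := common_of_even t k ht hk m (by omega) hm
      have hzf := hM z t hz1 ht ht1 hC (Or.inl (by rw [← hzt]; group))
      exact hM k z hk1 hz hz1 hzf (Or.inl (by rw [hzk]; group))
    · obtain ⟨x, hx⟩ := conj_of_odd t k ht hk m (by rw [← hm]; exact pow_orderOf_eq_one _)
      rw [← hx]
      exact cent_conj_finite t x hC
  have hodd : {g : H | ¬ ∃ n : ℕ, Odd n ∧ (t * (g⁻¹ * t * g)) ^ n = 1}.Finite := by
    have hT : (⋃ z ∈ {z : H | z * t = t * z ∧ z * z = 1 ∧ z ≠ 1}, {k : H | k * z = z * k}).Finite := by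
      refine Set.Finite.biUnion (hC.subset (fun (z : H) (hz : z * t = t * z ∧ z * z = 1 ∧ z ≠ 1) => hz.1)) ?_
      intro z hz
      exact hall z hz.2.1 hz.2.2
    refine (conj_mem_finite t hC _ hT).subset ?_
    intro g hg
    have hg2 : (g⁻¹ * t * g) * (g⁻¹ * t * g) = 1 := by
      calc (g⁻¹ * t * g) * (g⁻¹ * t * g) = g⁻¹ * (t * t) * g := by group
        _ = 1 := by rw [ht]; group
    have hpos : 0 < orderOf (t * (g⁻¹ * t * g)) := (tors _).orderOf_pos
    rcases Nat.even_or_odd' (orderOf (t * (g⁻¹ * t * g))) with ⟨m, hm | hm⟩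
    · obtain ⟨z, hz, hz1, hzt, hzk⟩ := common_of_even t (g⁻¹ * t * g) ht hg2 m (by omega) hm
      exact Set.mem_iUnion₂.mpr ⟨z, ⟨hzt, hz, hz1⟩, hzk.symm⟩
    · exact (hg ⟨_, ⟨m, hm⟩, pow_orderOf_eq_one _⟩).elim
  obtain ⟨s, w, hs, hs1, hw1, hsw, hinf⟩ := exists_inverted t ht hC hodd
  exact hinf (hM w s hw1 hs hs1 (hall s hs hs1) (Or.inr hsw))

end Pool.Agent.SHATB
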