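import Pool.Agent.SHATB.Main

set_option autoImplicit false

/-!
Finite 2-subgroups of infinite torsion members have infinite centralisers.
-/

namespace Pool.Agent.SHATB

open Pool.Agent.SHA

variable {K : (G : Type) → [Group G] → Prop}

/-- if the conjugates of the elements of the finite set `Q` under infinitely many elements stay in a
finite set, then `Q` has infinite centraliser -/
lemma cent_infinite_of {G : Type} [Group G] (Q R T : Set G) (hQ : Q.Finite) (hR : R.Finite)
    (hT : T.Infinite) (h : ∀ x ∈ T, ∀ q ∈ Q, x * q * x⁻¹ ∈ R) :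
    {y : G | ∀ q ∈ Q, y * q = q * y}.Infinite := by
  intro hfin
  apply hT
  let φ : G → (Q → G) := fun x q => x * (q : G) * x⁻¹
  have hQf : Finite Q := hQ
  have hpi : (Set.pi Set.univ (fun _ : Q => R)).Finite := Set.Finite.pi (fun _ => hR)
  have hsub : T ⊆ φ ⁻¹' (Set.pi Set.univ fun _ : Q => R) := fun x hx q _ => h x hx q q.2
  refine (hpi.preimage' ?_).subset hsub
  intro b _
  by_cases hb : ∃ x0, φ x0 = b
  · obtain ⟨x0, rfl⟩ := hb
    refine (hfin.image (fun y => x0 * y)).subset ?_
    intro x hx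
    refine ⟨x0⁻¹ * x, ?_, by group⟩
    intro q hq
    have h1 : x * q * x⁻¹ = x0 * q * x0⁻¹ := congrFun (show φ x = φ x0 from hx) ⟨q, hq⟩
    calc x0⁻¹ * x * q = x0⁻¹ * (x * q * x⁻¹) * x := by group
      _ = x0⁻¹ * (x0 * q * x0⁻¹) * x := by rw [h1]
      _ = q * (x0⁻¹ * x) := by group
  · have : φ ⁻¹' {b} = ∅ := by
      ext x
      exact ⟨fun hx => (hb ⟨x, hx⟩).elim, fun hx => hx.elim⟩
    rw [this]; exact Set.finite_empty

theorem inner_aux (hK : SHAb K) : ∀ n : ℕ, ∀ (G : Type) [Group G], K G → Infinite G → Tors G →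
    ∀ Q : Subgroup G, IsPGroup 2 Q → Finite Q → Nat.card Q ≤ n →
      {x : G | ∀ q ∈ Q, x * q = q * x}.Infinite := by
  intro n
  induction n with
  | zero =>
    intro G _ hKG hinf ht Q hQ hQf hcard
    have : 0 < Nat.card Q := Nat.card_pos
    omega
  | succ n ih =>
    intro G _ hKG hinf ht Q hQ hQf hcard
    by_cases hQb : Q = ⊥
    · subst hQb
      have : {x : G | ∀ q ∈ (⊥ : Subgroup G), x * q = q * x} = Set.univ := by
        ext x
        refine ⟨fun _ => trivial, fun _ => ?_⟩
        intro q hq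
        rw [Subgroup.mem_bot.mp hq]; simp
      rw [this]; exact Set.infinite_univ
    have hQn : Nontrivial Q := (Subgroup.nontrivial_iff_ne_bot Q).mpr hQb
    have hfact : Fact (Nat.Prime 2) := ⟨Nat.prime_two⟩
    have hcn : Nontrivial (Subgroup.center Q) := hQ.center_nontrivial
    obtain ⟨c, hc⟩ := exists_ne (1 : Subgroup.center Q)
    have hc1 : (c : Q) ≠ 1 := fun h => hc (Subtype.ext h)
    obtain ⟨m, hz2, hz1⟩ := exists_involution hQ (c : Q) hc1
    set zq : Q := (c : Q) ^ m with hzq
    have hzc : ∀ q : Q, q * zq = zq * q := by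
      intro q
      have : zq ∈ Subgroup.center Q := (Subgroup.center Q).pow_mem c.2 m
      exact (Subgroup.mem_center_iff.mp this q)
    let z : G := zq
    have hzz : z * z = 1 := congrArg Subtype.val hz2
    have hzn : z ≠ 1 := fun h => hz1 (Subtype.ext h)
    have hCinf : {y : G | y * z = z * y}.Infinite := by
      intro hfin
      exact no_almost_regular hK hKG ht ⟨hinf, z, hzz, hzn, hfin⟩
    have hzL : z ∈ Subgroup.centralizer ({z} : Set G) :=
      Subgroup.mem_centralizer_singleton_iff.mpr rfl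
    have hEn := zpowers_normal_centralizer z hzL
    have hLinf : Infinite (Subgroup.centralizer ({z} : Set G)) := by
      have h2 : ((Subgroup.centralizer ({z} : Set G) : Subgroup G) : Set G).Infinite := by
        refine Set.Infinite.mono ?_ hCinf
        intro y hy
        exact Subgroup.mem_centralizer_singleton_iff.mpr hy
      exact h2.to_subtype
    have hQL : Q ≤ Subgroup.centralizer ({z} : Set G) := by
      intro q hq
      exact Subgroup.mem_centralizer_singleton_iff.mpr (congrArg Subtype.val (hzc ⟨q, hq⟩))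
    generalize hLdef : Subgroup.centralizer ({z} : Set G) = L at *
    let z' : L := ⟨z, hzL⟩
    have hEn' : (Subgroup.zpowers z').Normal := hEn
    have hEf : Finite (Subgroup.zpowers z') := finite_zpowers.mpr (tors_iff.mp (ht.sub _) z')
    have hQ1 : IsPGroup 2 (Q.comap L.subtype) :=
      hQ.comap_of_injective L.subtype L.subtype_injective
    let Q2 : Subgroup (L ⧸ Subgroup.zpowers z') :=
      (Q.comap L.subtype).map (QuotientGroup.mk' (Subgroup.zpowers z'))
    have hQ2 : IsPGroup 2 Q2 := hQ1.map _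
    let j : (Q.comap L.subtype) → Q := fun x => ⟨x.1.1, x.2⟩
    have hj : Function.Injective j := by
      intro a b hab
      exact Subtype.ext (Subtype.ext (congrArg (fun w : Q => (w : G)) hab))
    have hQ1f : Finite (Q.comap L.subtype) := Finite.of_injective j hj
    have hQ1c : Nat.card (Q.comap L.subtype) ≤ Nat.card Q := Nat.card_le_card_of_injective j hj
    let π : (Q.comap L.subtype) → Q2 := fun x => ⟨QuotientGroup.mk' _ x.1, ⟨x.1, x.2, rfl⟩⟩
    have hπ : Function.Surjective π := by
      rintro ⟨_, ⟨x, hx, rfl⟩⟩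
      exact ⟨⟨x, hx⟩, rfl⟩
    have hQ2f : Finite Q2 := Finite.of_surjective π hπ
    have hπn : ¬ Function.Injective π := by
      intro hinj
      have h1 : π ⟨z', zq.2⟩ = π ⟨1, Subgroup.one_mem _⟩ := by
        apply Subtype.ext
        show QuotientGroup.mk' (Subgroup.zpowers z') z' = QuotientGroup.mk' _ 1
        rw [map_one]
        exact (QuotientGroup.eq_one_iff z').mpr (Subgroup.mem_zpowers z')
      have h2 := congrArg (fun w : (Q.comap L.subtype) => w.1.1) (hinj h1)
      exact hzn h2
    have hlt : Nat.card Q2 < Nat.card (Q.comap L.subtype) := by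
      refine lt_of_le_of_ne (Nat.card_le_card_of_surjective π hπ) ?_
      intro heq
      exact hπn (hπ.bijective_of_nat_card_le heq.ge).1
    have hS := ih (L ⧸ Subgroup.zpowers z') (hK.quo' (hK.sub' hKG L) _) (infinite_quot _ hEf)
      ((ht.sub L).quo _ (QuotientGroup.mk'_surjective _)) Q2 hQ2 hQ2f (by omega)
    have hS' := hS.preimage (f := QuotientGroup.mk' (Subgroup.zpowers z'))
      (by rw [Set.range_eq_univ.mpr (QuotientGroup.mk'_surjective _)]; exact Set.subset_univ _)
    have hT := hS'.image (f := (Subtype.val : L → G)) Subtype.val_injective.injOn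
    refine cent_infinite_of (Q : Set G) (Q : Set G) _ (Set.toFinite _) (Set.toFinite _) hT ?_
    rintro _ ⟨x, hx, rfl⟩ q hq
    have hq2 : QuotientGroup.mk' (Subgroup.zpowers z') (⟨q, hQL hq⟩ : L) ∈ Q2 :=
      ⟨⟨q, hQL hq⟩, hq, rfl⟩
    have h1 := hx _ hq2
    have h2 : x * ⟨q, hQL hq⟩ * x⁻¹ * (⟨q, hQL hq⟩ : L)⁻¹ ∈ Subgroup.zpowers z' := by
      rw [← QuotientGroup.eq_one_iff]
      show QuotientGroup.mk' (Subgroup.zpowers z') _ = 1
      rw [map_mul, map_mul, map_mul, map_inv, map_inv, h1]
      group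
    obtain ⟨k, hk⟩ := h2
    have h3 : z ^ k = x.1 * q * x.1⁻¹ * q⁻¹ := congrArg Subtype.val hk
    have h4 : x.1 * q * x.1⁻¹ = z ^ k * q := by rw [h3]; group
    show x.1 * q * x.1⁻¹ ∈ Q
    rw [h4]
    exact Q.mul_mem (Q.zpow_mem zq.2 k) hq

theorem inner (hK : SHAb K) (G : Type) [Group G] (hKG : K G) (hinf : Infinite G) (ht : Tors G)
    (Q : Subgroup G) (hQ : IsPGroup 2 Q) : {x : G | ∀ q ∈ Q, x * q = q * x}.Infinite :=
  have hQf : Finite Q := two_group_finite hK (hK.sub' hKG Q) hQ
  inner_aux hK _ G hKG hinf ht Q hQ hQf le_rfl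

end Pool.Agent.SHATB
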