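import Pool.Agent.SHATB.Sec

set_option autoImplicit false

/-!
Involutions in members of the class: an infinite torsion member has no involution with finite
centraliser, and members that are 2-groups are finite.
-/

namespace Pool.Agent.SHATB

open Pool.Agent.SHA

variable {K : (G : Type) → [Group G] → Prop}

/-- infinite, with an involution with finite centraliser -/
def AlmReg (H : Type) [Group H] : Prop :=
  Infinite H ∧ ∃ t : H, t * t = 1 ∧ t ≠ 1 ∧ {x : H | x * t = t * x}.Finite

lemma infinite_quot {L : Type} [Group L] [Infinite L] (E : Subgroup L) [E.Normal]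
    (hE : Finite E) : Infinite (L ⧸ E) := by
  rw [← not_finite_iff_infinite]
  intro hfin
  have hk : Finite (QuotientGroup.mk' E).ker := by rw [QuotientGroup.ker_mk']; exact hE
  have h1 : ((QuotientGroup.mk' E) ⁻¹' (Set.univ : Set (L ⧸ E))).Finite :=
    (Set.finite_univ).preimage' (fun b _ => fiber_finite _ hk b)
  rw [Set.preimage_univ] at h1
  exact Set.infinite_univ h1

lemma almReg_quot {L : Type} [Group L] [Infinite L] (E : Subgroup L) [E.Normal] (hE : Finite E)
    (s : L) (hs : s * s = 1) (hC : {x : L | x * s = s * x}.Finite) : AlmReg (L ⧸ E) := by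
  have hEf : (E : Set L).Finite := Set.toFinite _
  have hsE : s ∉ E := by
    intro h
    have h1 := conj_mem_finite s hC (E : Set L) hEf
    have h2 : {g : L | g⁻¹ * s * g ∈ (E : Set L)} = Set.univ := by
      ext g
      refine ⟨fun _ => trivial, fun _ => ?_⟩
      have := (inferInstance : E.Normal).conj_mem s h g⁻¹
      show g⁻¹ * s * g ∈ E
      simpa using this
    rw [h2] at h1
    exact Set.infinite_univ h1
  refine ⟨infinite_quot E hE, QuotientGroup.mk' E s, ?_, ?_, ?_⟩
  · rw [← map_mul, hs, map_one]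
  · intro h
    exact hsE ((QuotientGroup.eq_one_iff s).mp h)
  · have hT : ((fun e => s * e) '' (E : Set L)).Finite := hEf.image _
    refine ((conj_mem_finite s hC _ hT).image (QuotientGroup.mk' E)).subset ?_
    intro y hy
    obtain ⟨x, rfl⟩ := QuotientGroup.mk'_surjective E y
    have hy' : QuotientGroup.mk' E x * QuotientGroup.mk' E s
        = QuotientGroup.mk' E s * QuotientGroup.mk' E x := hy
    rw [← map_mul, ← map_mul] at hy'
    have h1 : (x * s)⁻¹ * (s * x) ∈ E := QuotientGroup.eq.mp hy'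
    refine ⟨x, ⟨s⁻¹ * (x⁻¹ * s * x), ?_, by group⟩, rfl⟩
    have : s⁻¹ * (x⁻¹ * s * x) = (x * s)⁻¹ * (s * x) := by group
    rw [this]; exact h1

/-- elements that fix or invert `d` under conjugation -/
def fixInv {H : Type} [Group H] (d : H) : Subgroup H where
  carrier := {x | x * d * x⁻¹ = d ∨ x * d * x⁻¹ = d⁻¹}
  one_mem' := Or.inl (by group)
  mul_mem' := by
    intro x y hx hy
    have e : x * y * d * (x * y)⁻¹ = x * (y * d * y⁻¹) * x⁻¹ := by group
    have e2 : x * d⁻¹ * x⁻¹ = (x * d * x⁻¹)⁻¹ := by group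
    show x * y * d * (x * y)⁻¹ = d ∨ x * y * d * (x * y)⁻¹ = d⁻¹
    rw [e]
    rcases (show y * d * y⁻¹ = d ∨ y * d * y⁻¹ = d⁻¹ from hy) with hy | hy <;>
    rcases (show x * d * x⁻¹ = d ∨ x * d * x⁻¹ = d⁻¹ from hx) with hx | hx <;> rw [hy]
    · exact Or.inl hx
    · exact Or.inr hx
    · right; rw [e2, hx]
    · left; rw [e2, hx, inv_inv]
  inv_mem' := by
    intro x hx
    show x⁻¹ * d * x⁻¹⁻¹ = d ∨ x⁻¹ * d * x⁻¹⁻¹ = d⁻¹
    rcases (show x * d * x⁻¹ = d ∨ x * d * x⁻¹ = d⁻¹ from hx) with hx | hx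
    · left
      calc x⁻¹ * d * x⁻¹⁻¹ = x⁻¹ * (x * d * x⁻¹) * x := by rw [hx, inv_inv]
        _ = d := by group
    · right
      calc x⁻¹ * d * x⁻¹⁻¹ = (x⁻¹ * d⁻¹ * x)⁻¹ := by group
        _ = (x⁻¹ * (x * d * x⁻¹) * x)⁻¹ := by rw [hx]
        _ = d⁻¹ := by group

lemma tors_inj {G H : Type} [Group G] [Group H] (h : Tors G) (f : H →* G)
    (hf : Function.Injective f) : Tors H := by
  intro x
  obtain ⟨n, hn, hx⟩ := h (f x)
  exact ⟨n, hn, hf (by rw [map_pow, hx, map_one])⟩

lemma zpowers_solvable {L : Type} [Group L] (d : L) : Group.IsSolvable (Subgroup.zpowers d) := by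
  apply Group.isSolvable_of_comm
  rintro ⟨a, ⟨m, rfl⟩⟩ ⟨b, ⟨n, rfl⟩⟩
  apply Subtype.ext
  show d ^ m * d ^ n = d ^ n * d ^ m
  rw [← zpow_add, ← zpow_add, add_comm]

theorem no_almost_regular (hK : SHAb K) {G : Type} [Group G] (hKG : K G) (ht : Tors G)
    (h : AlmReg G) : False := by
  obtain ⟨D, ⟨hDf, hDs, M, H, _, _, i, f, hi, hf, hker, hinf, t, ht2, ht1, hC⟩, hmax⟩ :=
    acc hK hKG ht AlmReg h
  have tH : Tors H := (tors_inj ht i hi).quo f hf
  have tors : ∀ x : H, IsOfFinOrder x := tors_iff.mp tH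
  refine base tors t ht2 ht1 hC ?_
  intro d s hd hs hs1 hCs hsd
  by_contra hninf
  have hdL : d ∈ fixInv d := Or.inl (by group)
  have hsL : s ∈ fixInv d := hsd
  let d' : fixInv d := ⟨d, hdL⟩
  let E : Subgroup (fixInv d) := Subgroup.zpowers d'
  have hEn : E.Normal := by
    constructor
    rintro _ ⟨n, rfl⟩ x
    show x * d' ^ n * x⁻¹ ∈ Subgroup.zpowers d'
    rw [← conj_zpow]
    rcases x.2 with hx | hx
    · have : x * d' * x⁻¹ = d' := Subtype.ext hx
      rw [this]; exact ⟨n, rfl⟩
    · have : x * d' * x⁻¹ = d'⁻¹ := Subtype.ext hx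
      rw [this]; exact ⟨-n, by simp⟩
  have hEf : Finite E := by
    have h1 : IsOfFinOrder d' := tors_iff.mp (tH.sub _) d'
    exact (finite_zpowers.mpr h1)
  have hLinf : Infinite (fixInv d) := by
    have h2 : ((fixInv d : Subgroup H) : Set H).Infinite := by
      refine Set.Infinite.mono ?_ hninf
      intro x hx
      left
      have hx' : x * d = d * x := hx
      rw [hx']; group
    exact h2.to_subtype
  have hCs' : {x : fixInv d | x * (⟨s, hsL⟩ : fixInv d) = ⟨s, hsL⟩ * x}.Finite := by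
    refine Set.Finite.subset (hCs.preimage (Subtype.val_injective.injOn)) ?_
    intro x hx
    exact congrArg Subtype.val hx
  have hreg : AlmReg (fixInv d ⧸ E) :=
    almReg_quot E hEf ⟨s, hsL⟩ (Subtype.ext hs) hCs'
  have hkE : (QuotientGroup.mk' E).ker = E := QuotientGroup.ker_mk' E
  obtain ⟨D', hD', hle, hne⟩ := step AlmReg D hDf hDs i f hi hf hker (fixInv d)
    (QuotientGroup.mk' E) (QuotientGroup.mk'_surjective E) (by rw [hkE]; exact hEf)
    (by rw [hkE]; exact zpowers_solvable d')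
    (by
      rw [hkE]
      intro hb
      have : d' = 1 := Subgroup.zpowers_eq_bot.mp hb
      exact hd (congrArg Subtype.val this)) hreg
  exact hne (hmax D' hD' hle)

/-- a nontrivial 2-group has an involution -/
lemma exists_involution {P : Type} [Group P] (hP : IsPGroup 2 P) (x : P) (hx : x ≠ 1) :
    ∃ n : ℕ, x ^ n * x ^ n = 1 ∧ x ^ n ≠ 1 := by
  classical
  have h := hP x
  let k := Nat.find h
  have hk : x ^ 2 ^ k = 1 := Nat.find_spec h
  have hk0 : k ≠ 0 := by
    intro h0
    rw [h0] at hk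
    simp at hk
    exact hx hk
  refine ⟨2 ^ (k - 1), ?_, ?_⟩
  · rw [← pow_add, ← two_mul, ← pow_succ', Nat.sub_add_cancel (Nat.pos_of_ne_zero hk0)]
    exact hk
  · exact Nat.find_min h (Nat.sub_lt (Nat.pos_of_ne_zero hk0) one_pos)

/-- the centraliser of a central-in-it element modulo its powers -/
lemma zpowers_normal_centralizer {H : Type} [Group H] (z : H)
    (hz : z ∈ Subgroup.centralizer ({z} : Set H)) :
    (Subgroup.zpowers (⟨z, hz⟩ : Subgroup.centralizer ({z} : Set H))).Normal := by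
  constructor
  rintro _ ⟨n, rfl⟩ x
  have hx : x * (⟨z, hz⟩ : Subgroup.centralizer ({z} : Set H)) * x⁻¹ = ⟨z, hz⟩ := by
    apply Subtype.ext
    show x.1 * z * x.1⁻¹ = z
    have := Subgroup.mem_centralizer_singleton_iff.mp x.2
    rw [this]; group
  show x * (⟨z, hz⟩ : Subgroup.centralizer ({z} : Set H)) ^ n * x⁻¹ ∈ _
  rw [← conj_zpow, hx]
  exact ⟨n, rfl⟩

theorem two_group_finite (hK : SHAb K) {P : Type} [Group P] (hKP : K P) (hP : IsPGroup 2 P) :
    Finite P := by
  by_contra hnf
  have hinf0 : Infinite P := not_finite_iff_infinite.mp hnf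
  have ht : Tors P := by
    intro x
    obtain ⟨k, hk⟩ := hP x
    exact ⟨2 ^ k, by positivity, hk⟩
  obtain ⟨D, ⟨hDf, hDs, M, H, _, _, i, f, hi, hf, hker, hinf⟩, hmax⟩ :=
    acc hK hKP ht (fun H _ => Infinite H) hinf0
  have hPH : IsPGroup 2 H := (hP.of_injective i hi).of_surjective f hf
  have hKH : K H := hK.quo _ _ f hf (hK.sub _ _ i hi hKP)
  have tH : Tors H := (tors_inj ht i hi).quo f hf
  obtain ⟨x, hx⟩ := exists_ne (1 : H)
  obtain ⟨n, hz2, hz1⟩ := exists_involution hPH x hx
  set z := x ^ n with hzdef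
  have hCinf : {y : H | y * z = z * y}.Infinite := by
    intro hfin
    exact no_almost_regular hK hKH tH ⟨hinf, z, hz2, hz1, hfin⟩
  have hzL : z ∈ Subgroup.centralizer ({z} : Set H) :=
    Subgroup.mem_centralizer_singleton_iff.mpr rfl
  have hEn := zpowers_normal_centralizer z hzL
  have hLinf : Infinite (Subgroup.centralizer ({z} : Set H)) := by
    have h2 : ((Subgroup.centralizer ({z} : Set H) : Subgroup H) : Set H).Infinite := by
      refine Set.Infinite.mono ?_ hCinf
      intro y hy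
      exact Subgroup.mem_centralizer_singleton_iff.mpr hy
    exact h2.to_subtype
  let z' : Subgroup.centralizer ({z} : Set H) := ⟨z, hzL⟩
  have hEf : Finite (Subgroup.zpowers z') :=
    finite_zpowers.mpr (tors_iff.mp (tH.sub _) z')
  have hkE : (QuotientGroup.mk' (Subgroup.zpowers z')).ker = Subgroup.zpowers z' :=
    QuotientGroup.ker_mk' _
  obtain ⟨D', hD', hle, hne⟩ := step (fun H _ => Infinite H) D hDf hDs i f hi hf hker
    (Subgroup.centralizer ({z} : Set H))
    (QuotientGroup.mk' (Subgroup.zpowers z')) (QuotientGroup.mk'_surjective _)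
    (by rw [hkE]; exact hEf) (by rw [hkE]; exact zpowers_solvable z')
    (by
      rw [hkE]
      intro hb
      have : z' = 1 := Subgroup.zpowers_eq_bot.mp hb
      exact hz1 (congrArg Subtype.val this)) (infinite_quot _ hEf)
  exact hne (hmax D' hD' hle)

end Pool.Agent.SHATB
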