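import Pool.Agent.SHATB.Inner

set_option autoImplicit false

/-!
Finite 2-groups of automorphisms: from centralisers in a group of automorphisms to fixed points.
-/

namespace Pool.Agent.SHATB

open Pool.Agent.SHA

lemma fix_infinite_of {G : Type} [Group G] (Q : Set (MulAut G)) (R T : Set G) (hQ : Q.Finite)
    (hR : R.Finite) (hT : T.Infinite) (h : ∀ x ∈ T, ∀ α ∈ Q, α x * x⁻¹ ∈ R) :
    {y : G | ∀ α ∈ Q, α y = y}.Infinite := by
  intro hfin
  apply hT
  let φ : G → (Q → G) := fun x q => (q : MulAut G) x * x⁻¹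
  have hQf : Finite Q := hQ
  have hpi : (Set.pi Set.univ (fun _ : Q => R)).Finite := Set.Finite.pi (fun _ => hR)
  have hsub : T ⊆ φ ⁻¹' (Set.pi Set.univ fun _ : Q => R) := fun x hx q _ => h x hx q q.2
  refine (hpi.preimage' ?_).subset hsub
  intro b _
  by_cases hb : ∃ x0, φ x0 = b
  · obtain ⟨x0, rfl⟩ := hb
    refine (hfin.image (fun y => x0 * y)).subset ?_
    intro x hx
    refine ⟨x0⁻¹ * x, ?_, by group⟩
    intro α hα
    have h1 : α x * x⁻¹ = α x0 * x0⁻¹ := congrFun (show φ x = φ x0 from hx) ⟨α, hα⟩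
    have h2 : α x = α x0 * x0⁻¹ * x := by rw [← h1]; group
    rw [map_mul, map_inv, h2]; group
  · have : φ ⁻¹' {b} = ∅ := by
      ext x
      exact ⟨fun hx => (hb ⟨x, hx⟩).elim, fun hx => hx.elim⟩
    rw [this]; exact Set.finite_empty

lemma conj_conj {G : Type} [Group G] (α : MulAut G) (g : G) :
    α * MulAut.conj g * α⁻¹ = MulAut.conj (α g) := by
  ext x
  simp [MulAut.mul_apply, MulAut.conj_apply]

lemma range_conj_normal {G : Type} [Group G] :
    (MulAut.conj : G →* MulAut G).range.Normal := by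
  constructor
  rintro _ ⟨g, rfl⟩ α
  exact ⟨α g, (conj_conj α g).symm⟩

theorem outer {G : Type} [Group G] [Infinite G] (ht : ∀ x : G, IsOfFinOrder x)
    (hZ : Finite (Subgroup.center G)) (Q : Subgroup (MulAut G)) (hQ : IsPGroup 2 Q)
    (hQf : Finite Q)
    (hin : ∀ A : Subgroup (MulAut G), Infinite A → (∀ x : A, IsOfFinOrder x) →
      ∀ P : Subgroup A, IsPGroup 2 P → {x : A | ∀ q ∈ P, x * q = q * x}.Infinite) :
    {g : G | ∀ α ∈ Q, α g = g}.Infinite := by
  classical
  have hn := range_conj_normal (G := G)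
  set c : G →* MulAut G := MulAut.conj with hc
  have hker : ∀ x : G, c x = 1 → x ∈ Subgroup.center G := by
    intro x hx
    rw [Subgroup.mem_center_iff]
    intro g
    have h1 : c x g = g := by rw [hx]; rfl
    have h2 : x * g * x⁻¹ = g := h1
    calc g * x = (x * g * x⁻¹) * x := by rw [h2]
      _ = x * g := by group
  have hkf : Finite c.ker := by
    let j : c.ker → Subgroup.center G := fun x => ⟨x.1, hker x.1 x.2⟩
    exact Finite.of_injective j
      (fun a b hab => Subtype.ext (congrArg (fun z : Subgroup.center G => (z : G)) hab))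
  let A : Subgroup (MulAut G) := c.range ⊔ Q
  have hrA : c.range ≤ A := le_sup_left
  have hQA : Q ≤ A := le_sup_right
  have hAmem : ∀ a ∈ A, ∃ g : G, ∃ α ∈ Q, a = c g * α := by
    intro a ha
    have h1 : a ∈ ((c.range ⊔ Q : Subgroup (MulAut G)) : Set (MulAut G)) := ha
    rw [Subgroup.normal_mul] at h1
    obtain ⟨_, ⟨g, rfl⟩, α, hα, rfl⟩ := h1
    exact ⟨g, α, hα, rfl⟩
  have hrinf : (Set.range c).Infinite := by
    intro hfin
    have h1 : (c ⁻¹' Set.range c).Finite := hfin.preimage' (fun b _ => fiber_finite c hkf b)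
    rw [Set.preimage_range] at h1
    exact Set.infinite_univ h1
  have hAinf : Infinite A := by
    have : (A : Set (MulAut G)).Infinite := by
      refine hrinf.mono ?_
      rintro _ ⟨g, rfl⟩
      exact hrA ⟨g, rfl⟩
    exact this.to_subtype
  have hAt : ∀ x : A, IsOfFinOrder x := by
    intro x
    obtain ⟨g, α, hα, hx⟩ := hAmem x.1 x.2
    have hα1 : α ^ Nat.card Q = 1 := by
      have : (⟨α, hα⟩ : Q) ^ Nat.card Q = 1 := pow_card_eq_one'
      exact congrArg Subtype.val this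
    have h1 : x.1 ^ Nat.card Q ∈ c.range := by
      rw [← QuotientGroup.eq_one_iff]
      have h2 : ((x.1 : MulAut G) : MulAut G ⧸ c.range) = (α : MulAut G ⧸ c.range) := by
        rw [hx]
        refine (QuotientGroup.eq).mpr ?_
        have : (c g * α)⁻¹ * α = α⁻¹ * c g⁻¹ * α⁻¹⁻¹ := by
          rw [map_inv]; group
        rw [this]
        exact hn.conj_mem _ ⟨g⁻¹, rfl⟩ α⁻¹
      rw [QuotientGroup.mk_pow, h2, ← QuotientGroup.mk_pow, hα1]
      rfl
    obtain ⟨h, hh⟩ := h1
    obtain ⟨m, hm, hm1⟩ := (isOfFinOrder_iff_pow_eq_one).mp (ht h)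
    refine isOfFinOrder_iff_pow_eq_one.mpr ⟨Nat.card Q * m, Nat.mul_pos Nat.card_pos hm, ?_⟩
    apply Subtype.ext
    show x.1 ^ (Nat.card Q * m) = 1
    rw [pow_mul, ← hh, ← map_pow, hm1, map_one]
  have hS := hin A hAinf hAt (Q.comap A.subtype)
    (hQ.comap_of_injective A.subtype A.subtype_injective)
  have hS1 := hS.image (f := (Subtype.val : A → MulAut G)) Subtype.val_injective.injOn
  set S1 : Set (MulAut G) := Subtype.val '' {x : A | ∀ q ∈ Q.comap A.subtype, x * q = q * x}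
    with hS1def
  have hS1c : ∀ a ∈ S1, a ∈ A ∧ ∀ q ∈ Q, a * q = q * a := by
    rintro _ ⟨x, hx, rfl⟩
    refine ⟨x.2, fun q hq => ?_⟩
    exact congrArg Subtype.val (hx ⟨q, hQA hq⟩ hq)
  obtain ⟨α0, hα0, hS2⟩ : ∃ α0 ∈ Q, {a ∈ S1 | ∃ g : G, a = c g * α0}.Infinite := by
    by_contra hcon
    push Not at hcon
    apply hS1
    have h1 : (⋃ α ∈ (Q : Set (MulAut G)), {a ∈ S1 | ∃ g : G, a = c g * α}).Finite :=
      Set.Finite.biUnion (Set.toFinite _) (fun α hα => hcon α hα)
    refine h1.subset ?_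
    intro a ha
    obtain ⟨g, α, hα, hag⟩ := hAmem a (hS1c a ha).1
    exact Set.mem_iUnion₂.mpr ⟨α, hα, ha, g, hag⟩
  obtain ⟨a0, ha0, g0, hg0⟩ := hS2.nonempty
  have hS3 : {b : MulAut G | b ∈ Set.range c ∧ ∀ q ∈ Q, b * q = q * b}.Infinite := by
    have hinj : Function.Injective (fun a : MulAut G => a * a0⁻¹) :=
      fun x y h => mul_right_cancel h
    refine (hS2.image hinj.injOn).mono ?_
    rintro _ ⟨a, ⟨ha, g, hg⟩, rfl⟩
    refine ⟨⟨g * g0⁻¹, ?_⟩, fun q hq => ?_⟩
    · show c (g * g0⁻¹) = a * a0⁻¹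
      rw [hg, hg0, map_mul, map_inv]; group
    · have e1 := (hS1c a ha).2 q hq
      have e2 := (hS1c a0 ha0).2 q hq
      show a * a0⁻¹ * q = q * (a * a0⁻¹)
      calc a * a0⁻¹ * q = a * a0⁻¹ * (q * a0) * a0⁻¹ := by group
        _ = a * a0⁻¹ * (a0 * q) * a0⁻¹ := by rw [e2]
        _ = (a * q) * a0⁻¹ := by group
        _ = q * (a * a0⁻¹) := by rw [e1]; group
  have hT : {g : G | ∀ q ∈ Q, c g * q = q * c g}.Infinite := by
    have h1 := hS3.preimage (f := c) (fun b hb => hb.1)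
    refine h1.mono ?_
    intro g hg
    exact hg.2
  refine fix_infinite_of (Q : Set (MulAut G)) (Subgroup.center G : Set G) _ (Set.toFinite _)
    (Set.toFinite _) hT ?_
  intro g hg α hα
  apply hker
  have h1 : c g * α = α * c g := hg α hα
  have h2 : c (α g) = c g := by
    rw [hc, ← conj_conj, ← hc, ← h1]; group
  rw [map_mul, map_inv, h2]; group

end Pool.Agent.SHATB
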