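import Mathlib
import Pool.Agent.SHA.Final
import Pool.Agent.SHATB.Base

set_option autoImplicit false

/-!
Sections of a member of the class: maximal finite soluble kernels.
-/

namespace Pool.Agent.SHATB

open Pool.Agent.SHA

/-- `D` is finite, soluble and the kernel of a surjection from a subgroup of `G` (the image of the
injection `i`) onto a group with the property `Φ` -/
def Sec (Φ : (H : Type) → [Group H] → Prop) (G : Type) [Group G] (D : Subgroup G) : Prop :=
  Finite D ∧ Group.IsSolvable D ∧ ∃ (M H : Type) (_ : Group M) (_ : Group H) (i : M →* G)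
    (f : M →* H), Function.Injective i ∧ Function.Surjective f ∧ f.ker.map i = D ∧ Φ H

variable {K : (G : Type) → [Group G] → Prop}

lemma tors_iff {G : Type} [Group G] : Tors G ↔ ∀ x : G, IsOfFinOrder x := by
  refine forall_congr' fun x => ?_
  rw [isOfFinOrder_iff_pow_eq_one]
  exact ⟨fun ⟨n, h, h'⟩ => ⟨n, Nat.pos_of_ne_zero h, h'⟩, fun ⟨n, h, h'⟩ => ⟨n, h.ne', h'⟩⟩

lemma acc (hK : SHAb K) {G : Type} [Group G] (hKG : K G) (ht : Tors G)
    (Φ : (H : Type) → [Group H] → Prop) (h0 : Φ G) :
    ∃ D : Subgroup G, Sec Φ G D ∧ ∀ D' : Subgroup G, Sec Φ G D' → D ≤ D' → D' = D := by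
  have hbot : Sec Φ G ⊥ := by
    refine ⟨inferInstance, Group.isSolvable_of_comm (fun a b => Subsingleton.elim _ _), G, G,
      inferInstance, inferInstance, MonoidHom.id G, MonoidHom.id G, fun _ _ h => h,
      fun x => ⟨x, rfl⟩, ?_, h0⟩
    rw [MonoidHom.ker_id, Subgroup.map_id]
  obtain ⟨m, -, hm⟩ := zorn_le_nonempty₀ {D : Subgroup G | Sec Φ G D} (by
    intro c hc hchain y hy
    have hfin : Finite (sSup c : Subgroup G) := by
      refine hK.finite_locSol (hK.sub' hKG _) ?_ (ht.sub _)
      intro L hL
      obtain ⟨S, hS⟩ := hL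
      -- all generators in one member of the chain
      have key : ∀ s : Finset (sSup c : Subgroup G), ∃ D ∈ c, ∀ x ∈ s, (x : G) ∈ D := by
        classical
        intro s
        induction s using Finset.induction_on with
        | empty => exact ⟨y, hy, by simp⟩
        | insert a s ha ih =>
          obtain ⟨D, hD, hDs⟩ := ih
          have h1 := a.2
          rw [Subgroup.mem_sSup_of_directedOn ⟨y, hy⟩ hchain.directedOn] at h1
          obtain ⟨D', hD', haD'⟩ := h1
          rcases hchain.total hD hD' with hh | hh
          · refine ⟨D', hD', fun x hx => ?_⟩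
            rcases Finset.mem_insert.mp hx with rfl | hx
            · exact haD'
            · exact hh (hDs x hx)
          · refine ⟨D, hD, fun x hx => ?_⟩
            rcases Finset.mem_insert.mp hx with rfl | hx
            · exact hh haD'
            · exact hDs x hx
      obtain ⟨D, hD, hDS⟩ := key S
      have hLD : ∀ x : L, ((x : (sSup c : Subgroup G)) : G) ∈ D := by
        have : L ≤ D.comap (sSup c : Subgroup G).subtype := by
          rw [← hS, Subgroup.closure_le]
          intro x hx
          exact hDS x hx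
        intro x
        exact this x.2
      have hsol : Group.IsSolvable D := (hc hD).2.1
      let φ : L →* D := ((sSup c : Subgroup G).subtype.comp L.subtype).codRestrict D hLD
      have hφ : Function.Injective φ := by
        intro a b hab
        have := congrArg (fun z : D => (z : G)) hab
        exact Subtype.ext (Subtype.ext this)
      exact Group.isSolvable_of_isSolvable_injective hφ
    have := sSup_mem_of_finite c ⟨y, hy⟩ hchain (Set.toFinite _)
    exact ⟨sSup c, hc this, fun z hz => le_sSup hz⟩) ⊥ hbot
  refine ⟨m, hm.prop, fun D' hD' hle => le_antisymm (hm.le_of_ge hD' hle) hle⟩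

lemma fiber_finite {A B : Type} [Group A] [Group B] (f : A →* B) (hk : Finite f.ker) (b : B) :
    {x : A | f x = b}.Finite := by
  by_cases h : ∃ x0 : A, f x0 = b
  · obtain ⟨x0, hx0⟩ := h
    have hk' : (f.ker : Set A).Finite := Set.toFinite _
    refine (hk'.image (fun y => x0 * y)).subset ?_
    intro x hx
    refine ⟨x0⁻¹ * x, ?_, by group⟩
    show f (x0⁻¹ * x) = 1
    rw [map_mul, map_inv, hx0, show f x = b from hx, inv_mul_cancel]
  · have : {x : A | f x = b} = ∅ := by
      ext x
      exact ⟨fun hx => (h ⟨x, hx⟩).elim, fun hx => hx.elim⟩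
    rw [this]; exact Set.finite_empty

lemma comp_ker_finite {A B C : Type} [Group A] [Group B] [Group C] (f : A →* B) (g : B →* C)
    (hf : Finite f.ker) (hg : Finite g.ker) : Finite (g.comp f).ker := by
  have h1 : ((g.comp f).ker : Set A) = f ⁻¹' (g.ker : Set B) := rfl
  have h2 : ((g.comp f).ker : Set A).Finite := by
    rw [h1]
    exact (Set.toFinite (g.ker : Set B)).preimage' (fun b _ => fiber_finite f hf b)
  exact h2

lemma comp_ker_solvable {A B C : Type} [Group A] [Group B] [Group C] (f : A →* B) (g : B →* C)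
    (hf : Group.IsSolvable f.ker) (hg : Group.IsSolvable g.ker) :
    Group.IsSolvable (g.comp f).ker := by
  have hle : f.ker ≤ (g.comp f).ker := by
    intro x hx
    have : f x = 1 := hx
    show g (f x) = 1
    rw [this, map_one]
  let g1 : (g.comp f).ker →* g.ker :=
    (f.comp (g.comp f).ker.subtype).codRestrict g.ker (fun x => x.2)
  refine Group.isSolvable_of_ker_le_range (Subgroup.inclusion hle) g1 ?_
  intro x hx
  have h1 : g1 x = 1 := hx
  have h2 : f x.1 = 1 := congrArg (fun z : g.ker => (z : B)) h1
  exact ⟨⟨x.1, h2⟩, Subtype.ext rfl⟩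

/-- a section of a section -/
lemma step (Φ : (H : Type) → [Group H] → Prop) {G : Type} [Group G] (D : Subgroup G)
    (hDf : Finite D) (hDs : Group.IsSolvable D) {M H : Type} [Group M] [Group H] (i : M →* G)
    (f : M →* H) (hi : Function.Injective i) (hf : Function.Surjective f)
    (hker : f.ker.map i = D) (L : Subgroup H) {H' : Type} [Group H'] (g : L →* H')
    (hg : Function.Surjective g) (hgf : Finite g.ker) (hgs : Group.IsSolvable g.ker)
    (hgb : g.ker ≠ ⊥) (hΦ : Φ H') :
    ∃ D' : Subgroup G, Sec Φ G D' ∧ D ≤ D' ∧ D' ≠ D := by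
  let fL : L.comap f →* L := f.subgroupComap L
  have hfL : Function.Surjective fL := by
    intro y
    obtain ⟨x, hx⟩ := hf y.1
    exact ⟨⟨x, show f x ∈ L by rw [hx]; exact y.2⟩, Subtype.ext hx⟩
  -- the kernel of `f` embeds into `D`
  let j : f.ker →* D := (i.comp f.ker.subtype).codRestrict D (fun x => by
    rw [← hker]; exact ⟨x.1, x.2, rfl⟩)
  have hj : Function.Injective j := by
    intro a b hab
    exact Subtype.ext (hi (congrArg (fun z : D => (z : G)) hab))
  have hkf : Finite f.ker := Finite.of_injective j hj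
  have hks : Group.IsSolvable f.ker := Group.isSolvable_of_isSolvable_injective hj
  let j2 : fL.ker →* f.ker := ((L.comap f).subtype.comp fL.ker.subtype).codRestrict f.ker
    (fun x => by
      have h1 : fL x.1 = 1 := x.2
      exact congrArg (fun z : L => (z : H)) h1)
  have hj2 : Function.Injective j2 := by
    intro a b hab
    exact Subtype.ext (Subtype.ext (congrArg (fun z : f.ker => (z : M)) hab))
  have hkf2 : Finite fL.ker := Finite.of_injective j2 hj2
  have hks2 : Group.IsSolvable fL.ker := Group.isSolvable_of_isSolvable_injective hj2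
  have hN1 := comp_ker_finite fL g hkf2 hgf
  have hN2 := comp_ker_solvable fL g hks2 hgs
  let i' : L.comap f →* G := i.comp (L.comap f).subtype
  have hi' : Function.Injective i' := hi.comp Subtype.val_injective
  have hsur := (i').subgroupMap_surjective (g.comp fL).ker
  refine ⟨(g.comp fL).ker.map i', ⟨Finite.of_surjective _ hsur,
    Group.isSolvable_of_surjective hsur, L.comap f, H', inferInstance, inferInstance, i',
    g.comp fL, hi', hg.comp hfL, rfl, hΦ⟩, ?_, ?_⟩
  · rw [← hker]
    rintro _ ⟨x, hx, rfl⟩
    have hx1 : f x = 1 := hx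
    refine ⟨⟨x, show f x ∈ L by rw [hx1]; exact L.one_mem⟩, ?_, rfl⟩
    show g (fL ⟨x, _⟩) = 1
    have : fL ⟨x, show f x ∈ L by rw [hx1]; exact L.one_mem⟩ = 1 := Subtype.ext hx1
    rw [this, map_one]
  · intro heq
    apply hgb
    rw [eq_bot_iff]
    intro l hl
    obtain ⟨x, hx⟩ := hf l.1
    have hxL : f x ∈ L := by rw [hx]; exact l.2
    have hmem : i x ∈ (g.comp fL).ker.map i' := by
      refine ⟨⟨x, hxL⟩, ?_, rfl⟩
      show g (fL ⟨x, hxL⟩) = 1
      have : fL ⟨x, hxL⟩ = l := Subtype.ext hx
      rw [this]; exact hl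
    rw [heq, ← hker] at hmem
    obtain ⟨y, hy, hyx⟩ := hmem
    have : y = x := hi hyx
    have h1 : f x = 1 := by rw [← this]; exact hy
    have h2 : l = 1 := Subtype.ext (by rw [← hx]; exact h1)
    rw [h2]; exact Subgroup.one_mem _

end Pool.Agent.SHATB
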