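import Mathlib

set_option autoImplicit false

/-!
An infinite group with an involution `t` that has finite centraliser and has product of odd order
with almost all of its conjugates: some product of two involutions has infinite centraliser.
-/

namespace Pool.Agent.SHATB

open Filter

lemma conj_eq_finite {G : Type} [Group G] (t k : G) (hC : {x : G | x * t = t * x}.Finite) :
    {g : G | g⁻¹ * t * g = k}.Finite := by
  by_cases h : ∃ g0 : G, g0⁻¹ * t * g0 = k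
  · obtain ⟨g0, hg0⟩ := h
    refine (hC.image (fun x => x * g0)).subset ?_
    intro g hg
    refine ⟨g * g0⁻¹, ?_, by simp⟩
    have h1 : g⁻¹ * t * g = g0⁻¹ * t * g0 := (show g⁻¹ * t * g = k from hg).trans hg0.symm
    show g * g0⁻¹ * t = t * (g * g0⁻¹)
    calc g * g0⁻¹ * t = g * (g0⁻¹ * t * g0) * g0⁻¹ := by group
      _ = g * (g⁻¹ * t * g) * g0⁻¹ := by rw [h1]
      _ = t * (g * g0⁻¹) := by group
  · have : {g : G | g⁻¹ * t * g = k} = ∅ := by
      ext g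
      constructor
      · intro hg; exact (h ⟨g, hg⟩).elim
      · intro hg; exact hg.elim
    rw [this]; exact Set.finite_empty

/-- conjugates of `t` in a finite set -/
lemma conj_mem_finite {G : Type} [Group G] (t : G) (hC : {x : G | x * t = t * x}.Finite)
    (T : Set G) (hT : T.Finite) : {g : G | g⁻¹ * t * g ∈ T}.Finite := by
  have : {g : G | g⁻¹ * t * g ∈ T} = (fun g : G => g⁻¹ * t * g) ⁻¹' T := rfl
  rw [this]
  exact hT.preimage' (fun b _ => conj_eq_finite t b hC)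

theorem exists_inverted {G : Type} [Group G] [Infinite G] (t : G) (ht : t * t = 1)
    (hC : {x : G | x * t = t * x}.Finite)
    (hodd : {g : G | ¬ ∃ n : ℕ, Odd n ∧ (t * (g⁻¹ * t * g)) ^ n = 1}.Finite) :
    ∃ s w : G, s * s = 1 ∧ s ≠ 1 ∧ w ≠ 1 ∧ s * w * s⁻¹ = w⁻¹ ∧
      {x : G | x * w = w * x}.Infinite := by
  classical
  have hti : t⁻¹ = t := inv_eq_of_mul_eq_one_left ht
  set C : Set G := {x : G | x * t = t * x} with hCdef
  set F : Set G := {g : G | ¬ ∃ n : ℕ, Odd n ∧ (t * (g⁻¹ * t * g)) ^ n = 1} with hFdef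
  let X : Set G := {x : G | t * x * t = x⁻¹}
  -- decomposition
  have hdec : ∀ g : G, g ∉ F → ∃ c ∈ C, c⁻¹ * g ∈ X := by
    intro g hg
    have hg' : ∃ n : ℕ, Odd n ∧ (t * (g⁻¹ * t * g)) ^ n = 1 := by
      by_contra h; exact hg h
    obtain ⟨n, ⟨k, hk⟩, hn⟩ := hg'
    set y : G := t * (g⁻¹ * t * g) with hy
    have hyinv : t * y * t = y⁻¹ := by
      rw [hy]
      calc t * (t * (g⁻¹ * t * g)) * t = (t * t) * (g⁻¹ * t * g) * t := by group
        _ = g⁻¹ * t * g * t := by rw [ht]; group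
        _ = (t⁻¹ * (g⁻¹ * t⁻¹ * g))⁻¹ := by group
        _ = (t * (g⁻¹ * t * g))⁻¹ := by rw [hti]
    have hpow : ∀ m : ℕ, t * y ^ m * t = (y ^ m)⁻¹ := by
      intro m
      have h1 : t * y * t⁻¹ = y⁻¹ := by rw [hti]; exact hyinv
      have h2 : t * y ^ m * t⁻¹ = (t * y * t⁻¹) ^ m := by
        rw [conj_pow]
      rw [hti] at h2
      rw [h2, hyinv, inv_pow]
    have hxx : y ^ (k + 1) * y ^ (k + 1) = y := by
      rw [← pow_add]
      have : k + 1 + (k + 1) = n + 1 := by omega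
      rw [this, pow_succ, hn, one_mul]
    refine ⟨g * (y ^ (k + 1))⁻¹, ?_, ?_⟩
    · have h3 : t * g * t = g * y⁻¹ := by
        have : y⁻¹ = g⁻¹ * t * g * t := by
          rw [hy]
          calc (t * (g⁻¹ * t * g))⁻¹ = g⁻¹ * t⁻¹ * g * t⁻¹ := by group
            _ = g⁻¹ * t * g * t := by rw [hti]
        rw [this]; group
      have h4 : t * (y ^ (k + 1))⁻¹ * t = y ^ (k + 1) := by
        have := hpow (k + 1)
        have h5 : (t * y ^ (k + 1) * t)⁻¹ = y ^ (k + 1) := by rw [this, inv_inv]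
        calc t * (y ^ (k + 1))⁻¹ * t = t⁻¹ * (y ^ (k + 1))⁻¹ * t⁻¹ := by rw [hti]
          _ = (t * y ^ (k + 1) * t)⁻¹ := by group
          _ = y ^ (k + 1) := h5
      have h6 : t * (g * (y ^ (k + 1))⁻¹) * t = g * (y ^ (k + 1))⁻¹ := by
        calc t * (g * (y ^ (k + 1))⁻¹) * t
            = (t * g * t) * (t⁻¹ * t⁻¹) * (t * (y ^ (k + 1))⁻¹ * t) := by group
          _ = (g * y⁻¹) * (t * t) * (y ^ (k + 1)) := by rw [h3, h4, hti]
          _ = g * (y ^ (k + 1) * y ^ (k + 1))⁻¹ * y ^ (k + 1) := by rw [ht, hxx]; group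
          _ = g * (y ^ (k + 1))⁻¹ := by group
      show g * (y ^ (k + 1))⁻¹ * t = t * (g * (y ^ (k + 1))⁻¹)
      calc g * (y ^ (k + 1))⁻¹ * t = (t * (g * (y ^ (k + 1))⁻¹) * t) * t := by rw [h6]
        _ = t * (g * (y ^ (k + 1))⁻¹) * (t * t) := by group
        _ = t * (g * (y ^ (k + 1))⁻¹) := by rw [ht, mul_one]
    · show t * ((g * (y ^ (k + 1))⁻¹)⁻¹ * g) * t = ((g * (y ^ (k + 1))⁻¹)⁻¹ * g)⁻¹
      have : (g * (y ^ (k + 1))⁻¹)⁻¹ * g = y ^ (k + 1) := by group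
      rw [this]; exact hpow (k + 1)
  have hXinf : X.Infinite := by
    intro hXf
    have hcov : (Set.univ : Set G) ⊆ F ∪ ⋃ c ∈ C, (fun x => c * x) '' X := by
      intro g _
      by_cases hg : g ∈ F
      · exact Or.inl hg
      · right
        obtain ⟨c, hc, hx⟩ := hdec g hg
        simp only [Set.mem_iUnion]
        exact ⟨c, hc, c⁻¹ * g, hx, by group⟩
    exact Set.infinite_univ ((hodd.union (hC.biUnion fun c _ => hXf.image _)).subset hcov)
  have hne : NeBot (cofinite ⊓ 𝓟 X) := hXinf.cofinite_inf_principal_neBot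
  let U : Ultrafilter G := Ultrafilter.of (cofinite ⊓ 𝓟 X)
  have hUle : (U : Filter G) ≤ cofinite ⊓ 𝓟 X := Ultrafilter.of_le _
  have hUX : X ∈ U := hUle (mem_inf_of_right (mem_principal_self X))
  have hUcof : ∀ S : Set G, S.Finite → Sᶜ ∈ U := fun S hS =>
    hUle (mem_inf_of_left hS.compl_mem_cofinite)
  have hUinf : ∀ S : Set G, S ∈ U → S.Infinite := by
    intro S hS hfin
    exact (Ultrafilter.compl_mem_iff_notMem.mp (hUcof S hfin)) hS
  have hstep1 : ∀ a : G, ∃ c ∈ C, {b : G | c⁻¹ * (a * b) ∈ X} ∈ U := by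
    intro a
    have h1 : {b : G | a * b ∈ F}ᶜ ∈ U := by
      apply hUcof
      exact hodd.preimage (fun x _ y _ h => mul_left_cancel h)
    have h2 : (⋃ c ∈ C, {b : G | c⁻¹ * (a * b) ∈ X}) ∈ U := by
      refine mem_of_superset h1 ?_
      intro b hb
      obtain ⟨c, hc, hx⟩ := hdec (a * b) hb
      simp only [Set.mem_iUnion]
      exact ⟨c, hc, hx⟩
    exact (Ultrafilter.finite_biUnion_mem_iff hC).mp h2
  choose cf hcf hcfU using hstep1
  obtain ⟨c, hc, hcU⟩ : ∃ c ∈ C, {a : G | cf a = c} ∈ U := by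
    apply (Ultrafilter.finite_biUnion_mem_iff hC).mp
    refine mem_of_superset (univ_mem) ?_
    intro a _
    simp only [Set.mem_iUnion]
    exact ⟨cf a, hcf a, rfl⟩
  have hAinf : ({a : G | cf a = c} ∩ X).Infinite := hUinf _ (inter_mem hcU hUX)
  obtain ⟨a, ⟨hac, haX⟩, hat⟩ : ∃ a ∈ {a : G | cf a = c} ∩ X, a ∉ ({t} : Set G) :=
    hAinf.exists_notMem_finite (Set.finite_singleton t)
  obtain ⟨a', ⟨hac', haX'⟩, haa'⟩ : ∃ a' ∈ {a : G | cf a = c} ∩ X, a' ∉ ({a} : Set G) :=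
    hAinf.exists_notMem_finite (Set.finite_singleton a)
  have hB : (X ∩ ({b : G | c⁻¹ * (a * b) ∈ X} ∩ {b : G | c⁻¹ * (a' * b) ∈ X})) ∈ U := by
    refine inter_mem hUX (inter_mem ?_ ?_)
    · have := hcfU a
      rwa [show cf a = c from hac] at this
    · have := hcfU a'
      rwa [show cf a' = c from hac'] at this
  have hBinf := hUinf _ hB
  have htc : t * c⁻¹ * t = c⁻¹ := by
    have h1 : c * t = t * c := hc
    calc t * c⁻¹ * t = (c * t)⁻¹ * (c * t) * (t * c⁻¹ * t) := by group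
      _ = (t * c)⁻¹ * (c * t) * (t * c⁻¹ * t) := by rw [h1]
      _ = c⁻¹ * t⁻¹ * c * (t * t) * c⁻¹ * t := by group
      _ = c⁻¹ * t * c * c⁻¹ * t := by rw [ht, hti]; group
      _ = c⁻¹ * (t * t) := by group
      _ = c⁻¹ := by rw [ht, mul_one]
  have hkey : ∀ a b : G, a ∈ X → b ∈ X → c⁻¹ * (a * b) ∈ X →
      b * c⁻¹ * a⁻¹ = a⁻¹ * c * b := by
    intro a b ha hb hab
    have ha1 : t * a * t = a⁻¹ := ha
    have hb1 : t * b * t = b⁻¹ := hb
    have h1 : t * (c⁻¹ * (a * b)) * t = (c⁻¹ * (a * b))⁻¹ := hab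
    have h2 : t * (c⁻¹ * (a * b)) * t = c⁻¹ * a⁻¹ * b⁻¹ := by
      calc t * (c⁻¹ * (a * b)) * t
          = (t * c⁻¹ * t) * (t⁻¹ * t⁻¹) * (t * a * t) * (t⁻¹ * t⁻¹) * (t * b * t) := by group
        _ = c⁻¹ * (t * t) * a⁻¹ * (t * t) * b⁻¹ := by rw [htc, ha1, hb1, hti]
        _ = c⁻¹ * a⁻¹ * b⁻¹ := by rw [ht]; group
    have h3 : c⁻¹ * a⁻¹ * b⁻¹ = b⁻¹ * a⁻¹ * c := by
      rw [← h2, h1]; group
    calc b * c⁻¹ * a⁻¹ = b * (c⁻¹ * a⁻¹ * b⁻¹) * b := by group
      _ = b * (b⁻¹ * a⁻¹ * c) * b := by rw [h3]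
      _ = a⁻¹ * c * b := by group
  refine ⟨t * a, a⁻¹ * a', ?_, ?_, ?_, ?_, ?_⟩
  · have ha1 : t * a * t = a⁻¹ := haX
    calc t * a * (t * a) = (t * a * t) * a := by group
      _ = 1 := by rw [ha1]; group
  · intro h
    apply hat
    have : a = t := by
      calc a = t⁻¹ * (t * a) := by group
        _ = t := by rw [h, hti, mul_one]
    exact this
  · intro h
    apply haa'
    have : a' = a := by
      calc a' = a * (a⁻¹ * a') := by group
        _ = a := by rw [h, mul_one]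
    exact this
  · have ha1 : t * a * t = a⁻¹ := haX
    have ha1' : t * a' * t = a'⁻¹ := haX'
    calc t * a * (a⁻¹ * a') * (t * a)⁻¹ = t * a' * a⁻¹ * t⁻¹ := by group
      _ = t * a' * a⁻¹ * t := by rw [hti]
      _ = (t * a' * t) * (t⁻¹ * t⁻¹) * (t⁻¹ * a * t⁻¹)⁻¹ := by group
      _ = a'⁻¹ * (t * t) * (t * a * t)⁻¹ := by rw [ha1', hti]
      _ = (a⁻¹ * a')⁻¹ := by rw [ht, ha1]; group
  · have hinj : Function.Injective (fun b : G => b * c⁻¹) := fun x y h => mul_right_cancel h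
    refine (hBinf.image hinj.injOn).mono ?_
    rintro _ ⟨b, ⟨hbX, hb1, hb2⟩, rfl⟩
    have e1 := hkey a b haX hbX hb1
    have e2 := hkey a' b haX' hbX hb2
    show b * c⁻¹ * (a⁻¹ * a') = a⁻¹ * a' * (b * c⁻¹)
    calc b * c⁻¹ * (a⁻¹ * a') = (b * c⁻¹ * a⁻¹) * a' := by group
      _ = (a⁻¹ * c * b) * a' := by rw [e1]
      _ = a⁻¹ * a' * (a'⁻¹ * c * b) * a' := by group
      _ = a⁻¹ * a' * (b * c⁻¹ * a'⁻¹) * a' := by rw [e2]
      _ = a⁻¹ * a' * (b * c⁻¹) := by group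

end Pool.Agent.SHATB
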